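import Mathlib
import Pool.Agent.Lib.helper13.RMin

set_option autoImplicit false

namespace Pool.Agent.Results.MP_f804be_nt.RMinimal

/-- `hA`: the set of all sums of `h` elements of `A` (repetitions allowed). -/
def sumset (h : ℕ) (A : Set ℕ) : Set ℕ :=
  {m | ∃ a : Fin h → ℕ, (∀ i, a i ∈ A) ∧ ∑ i, a i = m}

/-- `A` is an asymptotic basis of order `h`: `ℕ \ hA` is finite. -/
def IsBasis (h : ℕ) (A : Set ℕ) : Prop := (sumset h A)ᶜ.Finite

/-- `A` is an `r`-minimal asymptotic basis of order `h`: for every `S ⊆ A`, the set `A \ S` is an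
asymptotic basis of order `h` exactly when `|S| < r`. -/
def IsRMinimal (r h : ℕ) (A : Set ℕ) : Prop := ∀ S ⊆ A, IsBasis h (A \ S) ↔ S.encard < r

open H13RM

theorem mem_sumset {h m : ℕ} {A : Set ℕ} : m ∈ sumset h A ↔ R h A m := by
  constructor
  · rintro ⟨a, ha, rfl⟩
    refine ⟨Finset.univ.val.map a, by simp, fun x hx => ?_, rfl⟩
    obtain ⟨i, -, rfl⟩ := Multiset.mem_map.1 hx
    exact ha i
  · rintro ⟨s, rfl, hs, rfl⟩
    induction s using Quotient.inductionOn with
    | h l => exact ⟨l.get, fun i => hs _ (List.get_mem l i), Fin.sum_univ_getElem l⟩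

def e (k : ℕ) : Finset ℕ := (Encodable.decode (Nat.unpair k).1).getD ∅

def Z (g r : ℕ) : ℕ → ℕ
  | 0 => r + 1
  | k + 1 => n g (Z g r k) + 1

def U (r k : ℕ) (Q : Finset ℕ) : Finset ℕ :=
  if e k ⊆ Q ∧ (e k).card = r then e k else Finset.range r

def P (g r : ℕ) : ℕ → Finset ℕ
  | 0 => Finset.range r
  | k + 1 => P g r k ∪ Blk g (Z g r k) (U r k (P g r k))

variable {g r : ℕ}

theorem P_mono : Monotone (P g r) := monotone_nat_of_le_succ fun _ => Finset.subset_union_left

theorem U_sub (k : ℕ) : U r k (P g r k) ⊆ P g r k ∧ (U r k (P g r k)).card = r := by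
  unfold U
  split_ifs with h
  exacts [h, ⟨P_mono (g := g) (Nat.zero_le k), by simp⟩]

theorem Z_lt (hg : 1 ≤ g) (k : ℕ) : Z g r k < n g (Z g r k) :=
  (Blk_bd (U := ∅) hg (by simp) (mem_Blk.2 (.inl ⟨le_rfl, by unfold N; nlinarith⟩))).2

theorem Z_mono (hg : 1 ≤ g) : StrictMono (Z g r) :=
  strictMono_nat_of_lt_succ fun k => (Z_lt hg k).trans (Nat.lt_succ_self _)

theorem Z_pos (k : ℕ) : 1 ≤ Z g r k := by cases k <;> simp [Z]

theorem P_lt (hg : 1 ≤ g) : ∀ k, ∀ a ∈ P g r k, a + 1 < Z g r k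
  | 0, a, ha => by simpa [Z, P] using ha
  | k + 1, a, ha => by
    have h1 := Z_lt (r := r) hg k
    rcases Finset.mem_union.1 ha with h | h
    · have := P_lt hg k a h
      simp only [Z]; omega
    · have := Blk_bd hg (fun u hu => by have := P_lt hg k u ((U_sub k).1 hu); omega) h
      simp only [Z]; omega

theorem U_lt (hg : 1 ≤ g) (k : ℕ) : ∀ u ∈ U r k (P g r k), u < Z g r k := fun u hu => by
  have := P_lt hg k u ((U_sub k).1 hu); omega

theorem P_tri (hg : 1 ≤ g) (k : ℕ) : ∀ j, ∀ a ∈ P g r j, a ∈ P g r (k + 1) ∨ n g (Z g r k) < a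
  | 0, a, ha => .inl (P_mono (Nat.zero_le _) ha)
  | j + 1, a, ha => by
    rcases Finset.mem_union.1 ha with h | h
    · exact P_tri hg k j a h
    · rcases le_or_gt j k with h' | h'
      · exact .inl (P_mono (by omega) ha)
      · exact .inr (Nat.lt_of_succ_le (((Z_mono hg).monotone h').trans (Blk_bd hg (U_lt hg j) h).1))

/-- For every `h ≥ 3` and `r ≥ 1` there is an `r`-minimal asymptotic basis of order `h`. -/
theorem result (h r : ℕ) (hh : 3 ≤ h) (_hr : 1 ≤ r) : ∃ A : Set ℕ, IsRMinimal r h A := by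
  obtain ⟨g, rfl⟩ : ∃ g, h = g + 2 := ⟨h - 2, by omega⟩
  have hg : 1 ≤ g := by omega
  refine ⟨{a | ∃ k, a ∈ P g r k}, fun S hS => ⟨fun hb => ?_, fun hc => ?_⟩⟩
  · by_contra hc
    obtain ⟨T, hTS, hT⟩ := Set.exists_subset_encard_eq (not_lt.1 hc)
    obtain ⟨F, rfl⟩ := (Set.finite_of_encard_eq_coe hT).exists_finset_coe
    rw [Set.encard_coe_eq_coe_finsetCard, Nat.cast_inj] at hT
    obtain ⟨K, hK⟩ : ∃ K, ∀ a ∈ F, a ∈ P g r K := by
      choose! f hf using fun a (ha : a ∈ F) => hS (hTS ha)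
      exact ⟨F.sup f, fun a ha => P_mono (Finset.le_sup ha) (hf a ha)⟩
    obtain ⟨L, hL⟩ := hb.bddAbove
    set k := Nat.pair (Encodable.encode F) (K + L) with hk
    have hk1 : K + L ≤ k := Nat.right_le_pair _ _
    have hk2 : e k = F := by simp [e, hk]
    have hU : U r k (P g r k) = F := by
      unfold U
      rw [hk2, if_pos ⟨fun a ha => P_mono (by omega) (hK a ha), hT⟩]
    have h1 : n g (Z g r k) ∈ sumset (g + 2) ({a | ∃ k, a ∈ P g r k} \ S) := by
      by_contra h1
      have := hL h1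
      have := Z_lt (r := r) hg k
      have := (Z_mono (r := r) hg).id_le k
      simp only [id] at this
      omega
    obtain ⟨u, hu, hu'⟩ := uniq2 (B := {a | ∃ k, a ∈ P g r k} \ S) hg (Z_pos k) (U_lt hg k)
      (fun a ⟨⟨j, hj⟩, _⟩ => by
      rcases P_tri hg k j a hj with h | h
      · rcases Finset.mem_union.1 h with h | h
        exacts [.inl (P_lt hg k a h), .inr (.inl h)]
      · exact .inr (.inr h)) (mem_sumset.1 h1)
    exact hu'.2 (hTS (hU ▸ hu))
  · obtain ⟨F, rfl⟩ := (Set.finite_of_encard_le_coe hc.le).exists_finset_coe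
    rw [Set.encard_coe_eq_coe_finsetCard, Nat.cast_lt] at hc
    obtain ⟨K, hK⟩ := F.bddAbove
    have key : ∀ k, K + 1 ≤ k → ∀ m, N g (Z g r (K + 1)) ≤ m → m ≤ N g (Z g r k) →
        R (g + 2) ({a | ∃ k, a ∈ P g r k} \ F) m := by
      have hz : ∀ k, K + 1 ≤ k → ∀ a, Z g r k ≤ a → a ∉ (F : Set ℕ) := fun k hk a ha hF => by
        have := hK hF
        have := (Z_mono (r := r) hg).id_le k
        simp only [id] at this
        omega
      have step : ∀ k, K + 1 ≤ k → ∀ m, N g (Z g r k) ≤ m → m ≤ N g (Z g r (k + 1)) →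
          R (g + 2) ({a | ∃ k, a ∈ P g r k} \ F) m := fun k hk m h1 h2 => by
        refine cover (B := {a | ∃ k, a ∈ P g r k} \ F) (U := U r k (P g r k)) hg (Z_pos k) (fun a ha => ⟨⟨k + 1,
          Finset.mem_union_right _ ha⟩, hz k hk a (Blk_bd hg (U_lt hg k) ha).1⟩)
          (fun a ha ha' => ⟨⟨k + 2, Finset.mem_union_right _ (mem_Blk.2 (.inl ⟨ha, ha'⟩))⟩,
            hz (k + 1) (by omega) a ha⟩) ?_ m h1 h2
        obtain ⟨u, hu, hu'⟩ := Finset.exists_mem_notMem_of_card_lt_card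
          (hc.trans_eq (U_sub (g := g) k).2.symm)
        exact ⟨u, hu, U_lt hg k u hu, ⟨k, (U_sub k).1 hu⟩, hu'⟩
      intro k hk
      induction k, hk using Nat.le_induction with
      | base =>
        exact fun m h1 h2 => step _ le_rfl m h1
          (h2.trans (Nat.mul_le_mul_left _ ((Z_mono hg).monotone (Nat.le_succ _))))
      | succ k hk ih =>
        intro m h1 h2
        rcases le_total m (N g (Z g r k)) with h | h
        exacts [ih m h1 h, step k hk m h h2]
    refine (Set.finite_lt_nat (N g (Z g r (K + 1)))).subset fun m hm => ?_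
    by_contra h1
    refine hm (mem_sumset.2 (key (K + 1 + m) (by omega) m (not_lt.1 h1) ?_))
    have := (Z_mono (r := r) hg).id_le (K + 1 + m)
    simp only [id] at this
    unfold N
    nlinarith

end Pool.Agent.Results.MP_f804be_nt.RMinimal
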